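import Pool.Agent.H92.RK.Targets

set_option autoImplicit false

/-!
# MP_8f7db2_an, board rk_modules, row FIN: the theorem
-/

open MeasureTheory Set
open scoped ENNReal

namespace Pool.Agent.H65.RK

open Pool.Agent.H92.RK

theorem rot_smul_pt (α r s θ : ℝ) : rot α (r • pt s θ) = r • pt s (θ + α) := by
  ext i
  fin_cases i
  · simp [rot, pt, Real.cos_add]
    ring
  · simp [rot, pt, Real.sin_add]
    ring

theorem pf_FIN (hBS2 : T_BS2) (hLOW : T_LOW) (hUP1 : T_UP1) (hUP2 : T_UP2) (hTRA : T_TRA)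
    (hSCL : Pool.Agent.H85.LK.T_SCL) (hNE : Pool.Agent.H85.LK.T_NE)
    (hAP : Pool.Agent.H85.LK.T_AP) : T_FIN := by
  intro k r p Ω hk hr hΩ hrot hvol
  obtain ⟨τ, c, w₁, hB⟩ := hBS2
  set Ω₁ : Set E2 := (fun x => p + x) ⁻¹' Ω with hΩ₁
  set Ω₂ : Set E2 := (fun x => r • x) ⁻¹' Ω₁ with hΩ₂
  have hr0 : r ≠ 0 := hr.ne'
  have hback : Ω₁ = (fun x => r⁻¹ • x) ⁻¹' Ω₂ := by
    ext x
    simp only [hΩ₂, mem_preimage]
    rw [smul_smul, mul_inv_cancel₀ hr0, one_smul]
  have hT : Pool.Agent.H85.LK.lam 2 3 Ω₁ = Pool.Agent.H85.LK.lam 2 3 Ω := hTRA 3 p Ω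
  obtain ⟨-, hS2, hS3⟩ := hSCL 2 3 r hr
  have hS2' := hS2 Ω₂
  rw [← hback, hT] at hS2'
  rw [hS3, hS2']
  -- Ω₂ is open, of measure π, invariant
  have hO₁ : IsOpen Ω₁ := hΩ.preimage (continuous_const.add continuous_id)
  have hO₂ : IsOpen Ω₂ := hO₁.preimage (continuous_const_smul r)
  have hv₁ : volume Ω₁ = volume (Metric.ball (0 : E2) r) := by
    rw [← hvol, hΩ₁]
    exact measure_preimage_add volume p Ω
  have hball : (fun x : E2 => r • x) ⁻¹' Metric.ball (0 : E2) r = Metric.ball (0 : E2) 1 := by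
    ext x
    simp only [mem_preimage, mem_ball_zero_iff, norm_smul, Real.norm_eq_abs, abs_of_pos hr]
    constructor
    · intro h
      by_contra h'
      push Not at h'
      nlinarith
    · intro h
      nlinarith
  have hv₂ : volume Ω₂ = ENNReal.ofReal Real.pi := by
    have e1 : volume Ω₂ = volume ((fun x : E2 => r • x) ⁻¹' Metric.ball (0 : E2) r) := by
      rw [hΩ₂]
      erw [Measure.addHaar_preimage_smul volume hr0, Measure.addHaar_preimage_smul volume hr0]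
      rw [hv₁]
    rw [e1, hball, EuclideanSpace.volume_ball_fin_two]
    simp [ENNReal.ofReal]
  have hinv : Inv k Ω₂ := by
    intro s θ hs
    have h1 : p + r • pt s θ ∈ Ω := hs
    have h2 := hrot _ h1
    rw [add_sub_cancel_left, rot_smul_pt] at h2
    exact h2
  have hne : Ω₂.Nonempty := by
    rw [nonempty_iff_ne_empty]
    intro h
    rw [h, measure_empty] at hv₂
    have := ENNReal.ofReal_pos.mpr Real.pi_pos
    rw [← hv₂] at this
    exact lt_irrefl _ this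
  have hlow : 4 * τ ≤ Pool.Agent.H85.LK.lam 2 3 Ω₂ := by
    refine le_csInf (hNE 2 3 Ω₂ (by norm_num) hO₂ hne) ?_
    intro a ha
    exact hLOW τ c w₁ k Ω₂ a hB hk hO₂ hv₂ hinv ha
  have hup : Pool.Agent.H85.LK.lam 2 3 (Metric.ball (0 : E2) 1) ≤ 4 * τ := by
    refine le_of_forall_gt_imp_ge_of_dense ?_
    intro a ha
    obtain ⟨F, δ, hF, hδ, hsupp, hpos, hen⟩ := hUP1 τ c w₁ a hB ha
    have hmem := hUP2 F δ a hF hδ hsupp hpos hen
    exact csInf_le ⟨0, fun b hb => hAP 2 3 _ b (by norm_num) hb⟩ hmem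
  exact div_le_div_of_nonneg_right (hup.trans hlow) (sq_nonneg r)

end Pool.Agent.H65.RK
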