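import Pool.Agent.H92.RK.Targets

set_option autoImplicit false

/-!
# MP_8f7db2_an, board rk_modules, row LOW: the lower bound
-/

open MeasureTheory Set
open scoped ENNReal

namespace Pool.Agent.H65.RK

open Pool.Agent.H92.RK

theorem continuous_pt (r : ℝ) : Continuous (fun θ => pt r θ) := by
  unfold pt
  refine (PiLp.continuous_toLp 2 _).comp ?_
  refine continuous_pi fun i => ?_
  fin_cases i
  · exact continuous_const.mul Real.continuous_cos
  · exact continuous_const.mul Real.continuous_sin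

theorem pf_LOW (hKEY : T_KEY) : T_LOW := by
  intro τ c w₁ k Ω a hB hk hΩ hvol hinv ha
  obtain ⟨V, hV, hprop⟩ := ha
  have hcont : ∀ v ∈ V, Continuous v := fun v hv => (hprop v hv).1.continuous
  have hint : ∀ (r : ℝ) (v : E2 → ℝ), v ∈ V →
      IntervalIntegrable (fun θ => v (pt r θ)) volume (-Real.pi) Real.pi := by
    intro r v hv
    exact ((hcont v hv).comp (continuous_pt r)).intervalIntegrable _ _
  let Lr : ℝ → (V →ₗ[ℝ] ℝ) := fun r =>
    { toFun := fun v => ∫ θ in (-Real.pi)..Real.pi, (v : E2 → ℝ) (pt r θ)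
      map_add' := by
        intro v w
        simp only [Submodule.coe_add, Pi.add_apply]
        exact intervalIntegral.integral_add (hint r v v.2) (hint r w w.2)
      map_smul' := by
        intro s v
        simp only [Submodule.coe_smul, Pi.smul_apply, smul_eq_mul, RingHom.id_apply]
        exact intervalIntegral.integral_const_mul s _ }
  let L : V →ₗ[ℝ] ℝ × ℝ := (Lr r₁).prod (Lr r₂)
  haveI : FiniteDimensional ℝ V := Module.finite_of_finrank_pos (by rw [hV]; norm_num)
  have hker : LinearMap.ker L ≠ ⊥ := by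
    apply LinearMap.ker_ne_bot_of_finrank_lt
    rw [hV, Module.finrank_prod, Module.finrank_self]
    norm_num
  obtain ⟨u, hu, hu0⟩ := Submodule.exists_mem_ne_zero_of_ne_bot hker
  have hLu : L u = 0 := hu
  have h1 : ∫ θ in (-Real.pi)..Real.pi, (u : E2 → ℝ) (pt r₁ θ) = 0 := congrArg Prod.fst hLu
  have h2 : ∫ θ in (-Real.pi)..Real.pi, (u : E2 → ℝ) (pt r₂ θ) = 0 := congrArg Prod.snd hLu
  obtain ⟨hs, hcs, hts, hen⟩ := hprop u u.2
  have hkey := hKEY τ c w₁ k Ω u hB hk hΩ hvol hinv hs hcs hts h1 h2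
  have hne : (u : E2 → ℝ) ≠ 0 := by
    intro h
    exact hu0 (Subtype.ext h)
  obtain ⟨x, hx⟩ := Function.ne_iff.mp hne
  have hpos : 0 < ∫ z, (u : E2 → ℝ) z ^ 2 := by
    refine Continuous.integral_pos_of_hasCompactSupport_nonneg_nonzero
      ((hcont u u.2).pow 2) ?_ (fun z => sq_nonneg _) (x := x) ?_
    · have : (fun z => (u : E2 → ℝ) z ^ 2) = fun z => (u : E2 → ℝ) z * (u : E2 → ℝ) z := by
        funext z; ring
      rw [this]
      exact hcs.mul_right
    · exact pow_ne_zero 2 hx
  exact le_of_mul_le_mul_right (hkey.trans hen) hpos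

end Pool.Agent.H65.RK
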